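import Pool.Agent.helper5.DH.Spec

set_option autoImplicit false

open Complex Metric Set Filter Topology MeasureTheory
open Pool.Agent.helper98.ILF Pool.Agent.helper16.Multibrot
open HY (UD T S hd UN RM VV SG Orb fz)

noncomputable section

namespace DH

theorem BTP_iter_diff (n : ℕ) (c : ℂ) (i : ℕ) : Differentiable ℂ ((fz n c)^[i]) := by
  have h : Differentiable ℂ (fz n c) := by
    show Differentiable ℂ (fun z => z ^ n + c)
    fun_prop
  exact h.iterate i

theorem BTP_iter_mem (n : ℕ) (c z : ℂ) (m i : ℕ) : (fz n c)^[i] z ∈ VV n c m ↔ z ∈ VV n c (m + i) := by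
  unfold VV
  simp only [mem_setOf_eq, Function.iterate_add_apply]

theorem BTP (hCOP : COP_stmt) (hVKB : HY.VKB_stmt) (hMOB : HY.MOB_stmt) : BTP_stmt := by
  intro n c Φ b hT
  obtain ⟨-, h0f, -, -, hff, -, -, hsub, -, hfV, -, -⟩ := hVKB n c hT.hn hT.hc
  have hanti : ∀ k l : ℕ, k ≤ l → VV n c l ⊆ VV n c k := fun k l hkl =>
    antitone_nat_of_succ_le (f := VV n c) (fun m => hsub m) hkl
  have h0 : (0 : ℂ) ∈ UD := by simp [UD]
  have hC := fun l => hCOP (VV n c l) 0 (Φ l) (hT.rm l)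
  -- coordinates
  have hco : ∀ l, ∀ z ∈ VV n c l, co (Φ l) z ∈ UD ∧ Φ l (co (Φ l) z) = z := fun l => (hC l).2.2.2.1
  have hph : ∀ l, ∀ x ∈ UD, Φ l x ∈ VV n c l ∧ co (Φ l) (Φ l x) = x := fun l => (hC l).2.2.2.2.1
  have hcd : ∀ l, DifferentiableOn ℂ (co (Φ l)) (VV n c l) := fun l => (hC l).2.2.2.2.2.1
  have hco0 : ∀ l, co (Φ l) 0 = 0 := fun l => (hC l).2.2.1
  have hjj : ∀ k l : ℕ, k ≤ l → UN (jj Φ k l) ∧ jj Φ k l 0 = 0 ∧ (∀ x ∈ UD, Φ k (jj Φ k l x) = Φ l x) := by
    intro k l hkl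
    have hmem : ∀ x ∈ UD, Φ l x ∈ VV n c k := fun x hx => hanti k l hkl (hph l x hx).1
    refine ⟨⟨?_, ?_, ?_⟩, ?_, ?_⟩
    · exact (hcd k).comp (hT.rm l).dif hmem
    · intro x hx y hy hxy
      apply (hT.rm l).inj hx hy
      rw [← (hco k _ (hmem x hx)).2, ← (hco k _ (hmem y hy)).2]
      exact congrArg (Φ k) hxy
    · intro x hx
      exact (hco k _ (hmem x hx)).1
    · show co (Φ k) (Φ l 0) = 0
      rw [(hT.rm l).val, hco0]
    · intro x hx
      exact (hco k _ (hmem x hx)).2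
  refine ⟨hjj, ?_⟩
  intro k t p hp
  have hit : ∀ i, (fz n c)^[i] p ∈ filled n c := by
    intro i
    induction i with
    | zero => simpa using hp
    | succ i ih => rw [Function.iterate_succ_apply']; exact hff _ ih
  have hyv : ∀ (l i : ℕ), yv Φ n c l p i ∈ UD ∧ Φ l (yv Φ n c l p i) = (fz n c)^[i] p :=
    fun l i => hco l _ (hfV l (hit i))
  have hch : RM (VV n c (k + t)) p (ch Φ n c k t p) := by
    set a := yv Φ n c (k + t) p 0 with ha
    have haU : a ∈ UD := (hyv (k + t) 0).1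
    obtain ⟨h1, h2, h3, h4, h5, h6, h7, -⟩ := hMOB a haU
    have hmap : MapsTo (S a) UD UD := fun x hx => (h1 x hx).2.1
    have hφ := hT.rm (k + t)
    refine ⟨?_, ?_, ?_, ?_⟩
    · exact hφ.dif.comp h5 hmap
    · intro x hx y hy hxy
      exact h7 hx hy (hφ.inj (hmap hx) (hmap hy) hxy)
    · rw [← hφ.img]
      apply Set.Subset.antisymm
      · rintro _ ⟨x, hx, rfl⟩
        exact ⟨S a x, hmap hx, rfl⟩
      · rintro _ ⟨x, hx, rfl⟩
        refine ⟨T a x, (h1 x hx).1, ?_⟩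
        show Φ (k + t) (S a (T a x)) = Φ (k + t) x
        rw [(h1 x hx).2.2.1]
    · show Φ (k + t) (S a 0) = p
      rw [h3, ha, (hyv (k + t) 0).2]
      rfl
  refine ⟨hch, hyv, ?_, ?_⟩
  · intro k l i hkl
    have e : jj Φ k l (yv Φ n c l p i) = yv Φ n c k p i := by
      show co (Φ k) (Φ l (yv Φ n c l p i)) = co (Φ k) ((fz n c)^[i] p)
      rw [(hyv l i).2]
    refine ⟨e, ?_⟩
    obtain ⟨hU, hz, -⟩ := hjj k l hkl
    have h1 : ‖yv Φ n c l p i‖ < 1 := by
      have := (hyv l i).1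
      simpa [UD] using this
    have := Complex.norm_le_norm_of_mapsTo_ball (f := jj Φ k l) (R := 1) hU.dif
      (fun x hx => ball_subset_closedBall (hU.map hx)) hz h1
    rw [e] at this
    exact this
  · intro i hi
    have hmem : ∀ w ∈ UD, (fz n c)^[i] (ch Φ n c k t p w) ∈ VV n c (k + t - i) := by
      intro w hw
      rw [BTP_iter_mem]
      have : k + t - i + i = k + t := by omega
      rw [this, ← hch.img]
      exact mem_image_of_mem _ hw
    refine ⟨?_, ?_, ?_, ?_⟩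
    · exact (hcd (k + t - i)).comp ((BTP_iter_diff n c i).comp_differentiableOn hch.dif) hmem
    · intro w hw
      exact (hco _ _ (hmem w hw)).1
    · show co (Φ (k + t - i)) ((fz n c)^[i] (ch Φ n c k t p 0)) = co (Φ (k + t - i)) ((fz n c)^[i] p)
      rw [hch.val]
    · intro w hw
      exact (hco _ _ (hmem w hw)).2

end DH
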